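import Mathlib
import Pool.Agent.Lib.MP_0a1b52_lc_RP.Defs
import Pool.Agent.Lib.MP_0a1b52_lc_RK.Defs

/-!
# Local proofs with fixed sets: definitions
-/

set_option autoImplicit false

namespace Pool.Agent.RV

open Finset Pool.Agent.FP Pool.Agent.RP

/-- the expected number of bad configurations: `M` gadgets with `g` positions in `n` vertices, if
two positions of a gadget have given values with probability at most `q ^ 2` -/
noncomputable def badq (M g n : ℕ) (q : ℝ) (a h : ℕ) : ℝ :=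
  (M : ℝ) * (g : ℝ) ^ 2 * n * q ^ 2 + (M : ℝ) ^ 2 * (g : ℝ) ^ 4 * q ^ 2 +
    (M : ℝ) ^ (a + 1) * (g : ℝ) ^ (3 * a) * n * q ^ (2 * a) +
    ((M : ℝ) * (g : ℝ) ^ 2) ^ Fintype.card (Pairs h) * (n : ℝ) ^ h *
      q ^ (2 * Fintype.card (Pairs h))

/-- the contents of a gadget: for each `t` a variable of `X t` whose vertices are smaller than `N`,
and `z` further vertices smaller than `N` -/
abbrev Cont {n K : ℕ} (X : Fin K → Finset (EdgeVar n)) (z N : ℕ) : Type :=
  (∀ t : Fin K, {e : EdgeVar n // e ∈ X t ∧ (e.1.2 : ℕ) < N}) × (Fin z → Fin N)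

/-- the vertices of a gadget -/
def vert {n K z N : ℕ} (hN : N ≤ n) (X : Fin K → Finset (EdgeVar n)) (ω : Cont X z N) :
    RK.J K z → Fin n
  | .inl (t, false) => (ω.1 t).1.1.1
  | .inl (t, true) => (ω.1 t).1.1.2
  | .inr s => Fin.castLE hN (ω.2 s)

end Pool.Agent.RV
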