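import Mathlib
import Pool.Agent.Lib.MP_0a1b52_lc_RV.Defs

/-!
# Local proofs with fixed sets, module Bad: few bad gadgets for any distribution with small pair
probabilities
-/

set_option autoImplicit false

namespace Pool.Agent.RV

open Finset Pool.Agent.FP Pool.Agent.RP

/-- prescribed sets at the places `i x`, which depend on the other places only -/
private theorem bad_core {I Ω Q : Type} [Fintype I] [DecidableEq I] [Fintype Ω] [DecidableEq Ω]
    [Nonempty Ω] [Fintype Q] [DecidableEq Q] (i : Q → I) (hi : Function.Injective i)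
    (E : (I → Ω) → Q → Finset Ω)
    (hE : ∀ φ φ', (∀ u, u ∉ Set.range i → φ u = φ' u) → E φ = E φ') (c : ℝ)
    (hc : ∀ φ x, ((E φ x).card : ℝ) ≤ c * Fintype.card Ω) :
    ((univ.filter fun φ : I → Ω => ∀ x, φ (i x) ∈ E φ x).card : ℝ) ≤
      c ^ Fintype.card Q * Fintype.card (I → Ω) := by
  classical
  have hΩ : (0 : ℝ) < Fintype.card Ω := by exact_mod_cast Fintype.card_pos
  have hc0 : 0 ≤ c * Fintype.card Ω ∨ IsEmpty Q := by
    rcases isEmpty_or_nonempty Q with h | ⟨⟨x⟩⟩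
    · exact Or.inr h
    · obtain ⟨φ⟩ : Nonempty (I → Ω) := inferInstance
      exact Or.inl ((Nat.cast_nonneg _).trans (hc φ x))
  have hext : ∀ (ψ : Q → Ω) (φ : I → Ω), E (Function.extend i ψ φ) = E φ := by
    intro ψ φ
    refine hE _ _ fun u hu => ?_
    exact Function.extend_apply' _ _ _ (by simpa [Set.mem_range] using hu)
  have e : {φ : I → Ω // ∀ x, φ (i x) ∈ E φ x} × (Q → Ω) ≃
      Σ φ : I → Ω, ∀ x, {ω : Ω // ω ∈ E φ x} :=
    { toFun := fun p => ⟨Function.extend i p.2 p.1.1, fun x => ⟨p.1.1 (i x), by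
        rw [hext]; exact p.1.2 x⟩⟩
      invFun := fun p => (⟨Function.extend i (fun x => (p.2 x).1) p.1, fun x => by
        rw [hext, hi.extend_apply]; exact (p.2 x).2⟩, fun x => p.1 (i x))
      left_inv := by
        rintro ⟨⟨φ, hφ⟩, ψ⟩
        ext1
        · apply Subtype.ext
          funext u
          by_cases hu : ∃ a, i a = u
          · obtain ⟨a, rfl⟩ := hu
            simp only
            rw [hi.extend_apply]
          · simp only
            rw [Function.extend_apply' _ _ _ hu, Function.extend_apply' _ _ _ hu]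
        · funext a
          exact hi.extend_apply ψ φ a
      right_inv := by
        rintro ⟨φ, ψ⟩
        have h1 : Function.extend i (fun x => φ (i x))
            (Function.extend i (fun x => (ψ x).1) φ) = φ := by
          funext u
          by_cases hu : ∃ a, i a = u
          · obtain ⟨a, rfl⟩ := hu
            rw [hi.extend_apply]
          · rw [Function.extend_apply' _ _ _ hu, Function.extend_apply' _ _ _ hu]
        refine Sigma.ext h1 ?_
        refine Function.hfunext rfl ?_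
        intro x x' hx
        obtain rfl := eq_of_heq hx
        have h2 : E (Function.extend i (fun x => φ (i x))
            (Function.extend i (fun x => (ψ x).1) φ)) x = E φ x := by rw [h1]
        simp only
        refine (Subtype.heq_iff_coe_eq ?_).2 ?_
        · intro ω
          rw [h2]
        · exact hi.extend_apply (fun x => (ψ x).1) φ x }
  have h := Fintype.card_congr e
  rw [Fintype.card_prod, Fintype.card_fun, Fintype.card_sigma, Fintype.card_subtype] at h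
  simp only [Fintype.card_pi, Fintype.card_coe] at h
  have h' : ((univ.filter fun φ : I → Ω => ∀ x, φ (i x) ∈ E φ x).card : ℝ) *
      (Fintype.card Ω : ℝ) ^ Fintype.card Q = ∑ φ : I → Ω, ∏ x, ((E φ x).card : ℝ) := by
    exact_mod_cast h
  have h2 : ∑ φ : I → Ω, ∏ x, ((E φ x).card : ℝ) ≤
      ∑ _φ : I → Ω, (c * Fintype.card Ω) ^ Fintype.card Q := by
    refine sum_le_sum fun φ _ => ?_
    rw [← Finset.card_univ (α := Q), ← Finset.prod_const]
    exact Finset.prod_le_prod (fun _ _ => Nat.cast_nonneg _) fun x _ => hc φ x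
  rw [← h', sum_const, card_univ, nsmul_eq_mul, mul_pow] at h2
  have h3 : (0 : ℝ) < (Fintype.card Ω : ℝ) ^ Fintype.card Q := pow_pos hΩ _
  refine le_of_mul_le_mul_right (h2.trans (le_of_eq ?_)) h3
  ring

/-- one gadget is removed from each configuration -/
private theorem bad_gen {I Ω P : Type} [Fintype I] [DecidableEq I] [Fintype Ω] [Fintype P]
    (Ev : P → (I → Ω) → Prop) (own : P → I) (c : ℝ) (hc0 : 0 ≤ c) (m : ℝ)
    (hm : (Fintype.card P : ℝ) ≤ m)
    (hc : ∀ p (_ : DecidablePred (Ev p)),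
      ((univ.filter fun φ : I → Ω => Ev p φ).card : ℝ) ≤ c * Fintype.card (I → Ω)) :
    ∃ R : (I → Ω) → Finset I, (∀ φ p, Ev p φ → own p ∈ R φ) ∧
      (∑ φ, ((R φ).card : ℝ)) ≤ m * c * Fintype.card (I → Ω) := by
  classical
  refine ⟨fun φ => (univ.filter fun p => Ev p φ).image own, ?_, ?_⟩
  · intro φ p h
    rw [mem_image]
    exact ⟨p, by simpa using h, rfl⟩
  · have h1 : (∑ φ : I → Ω, (((univ.filter fun p => Ev p φ).image own).card : ℝ)) ≤
        ∑ φ : I → Ω, ((univ.filter fun p => Ev p φ).card : ℝ) :=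
      sum_le_sum fun φ _ => by exact_mod_cast card_image_le
    have h2 : (∑ φ : I → Ω, ((univ.filter fun p => Ev p φ).card : ℝ)) =
        ∑ p : P, ((univ.filter fun φ : I → Ω => Ev p φ).card : ℝ) := by
      simp only [Finset.card_filter, Nat.cast_sum]
      exact Finset.sum_comm
    have h3 : ∑ p : P, ((univ.filter fun φ : I → Ω => Ev p φ).card : ℝ) ≤
        ∑ _p : P, c * Fintype.card (I → Ω) := sum_le_sum fun p _ => hc p _
    rw [sum_const, card_univ, nsmul_eq_mul] at h3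
    refine h1.trans (h2.trans_le (h3.trans ?_))
    rw [mul_assoc m]
    exact mul_le_mul_of_nonneg_right hm (by positivity)

section

variable {I Ω Jt : Type} [Fintype I] [DecidableEq I] [Fintype Ω] [DecidableEq Ω] [Nonempty Ω]
  [Fintype Jt] [DecidableEq Jt] {n : ℕ} (w : Ω → Jt → Fin n) (q : ℝ)
  (hpair : ∀ j k, j ≠ k → ∀ u v,
    ((univ.filter fun ω => w ω j = u ∧ w ω k = v).card : ℝ) ≤ q ^ 2 * Fintype.card Ω)

include hpair

private theorem bad_inj' :
    ∃ R : (I → Ω) → Finset I,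
      (∀ φ i, i ∉ R φ → Function.Injective (w (φ i))) ∧
      (∑ φ, ((R φ).card : ℝ)) ≤
        ((Fintype.card I : ℝ) * (Fintype.card Jt : ℝ) ^ 2 * n) * q ^ 2 *
          Fintype.card (I → Ω) := by
  obtain ⟨R, hR, hs⟩ := bad_gen (I := I) (Ω := Ω)
    (P := {p : I × (Jt × Jt) × Fin n // p.2.1.1 ≠ p.2.1.2})
    (fun p φ => w (φ p.1.1) p.1.2.1.1 = p.1.2.2 ∧ w (φ p.1.1) p.1.2.1.2 = p.1.2.2)
    (fun p => p.1.1) (q ^ 2) (sq_nonneg q)
    ((Fintype.card I : ℝ) * (Fintype.card Jt : ℝ) ^ 2 * n) (by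
      have h2 := Fintype.card_subtype_le fun p : I × (Jt × Jt) × Fin n => p.2.1.1 ≠ p.2.1.2
      rw [Fintype.card_prod, Fintype.card_prod, Fintype.card_prod, Fintype.card_fin] at h2
      have h3 : (Fintype.card {p : I × (Jt × Jt) × Fin n // p.2.1.1 ≠ p.2.1.2} : ℝ) ≤
          ((Fintype.card I * (Fintype.card Jt * Fintype.card Jt * n) : ℕ) : ℝ) := by
        exact_mod_cast h2
      refine h3.trans (le_of_eq ?_)
      push_cast
      ring) (by
      rintro ⟨⟨i, ⟨j, k⟩, u⟩, hjk⟩ hdec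
      have h := bad_core (Q := Unit) (fun _ => i) (fun _ _ _ => rfl)
        (fun _ _ => univ.filter fun ω => w ω j = u ∧ w ω k = u) (fun _ _ _ => rfl) (q ^ 2)
        (fun _ _ => hpair j k hjk u u)
      rw [Fintype.card_unit, pow_one] at h
      refine le_trans (le_of_eq ?_) h
      congr 2
      ext φ
      simp)
  refine ⟨R, fun φ i hi j k h => ?_, hs⟩
  by_contra hne
  exact hi (hR φ ⟨(i, (j, k), w (φ i) j), hne⟩ ⟨rfl, h.symm⟩)

private theorem bad_share' :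
    ∃ R : (I → Ω) → Finset I,
      (∀ φ i i' j k j' k', i ∉ R φ → i ≠ i' → j ≠ k → j' ≠ k' → w (φ i) j = w (φ i') j' →
        w (φ i) k = w (φ i') k' → False) ∧
      (∑ φ, ((R φ).card : ℝ)) ≤
        ((Fintype.card I : ℝ) ^ 2 * (Fintype.card Jt : ℝ) ^ 4) * q ^ 2 *
          Fintype.card (I → Ω) := by
  obtain ⟨R, hR, hs⟩ := bad_gen (I := I) (Ω := Ω)
    (P := {p : (I × I) × (Jt × Jt) × (Jt × Jt) // p.1.1 ≠ p.1.2 ∧ p.2.1.1 ≠ p.2.1.2})
    (fun p φ => w (φ p.1.1.1) p.1.2.1.1 = w (φ p.1.1.2) p.1.2.2.1 ∧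
      w (φ p.1.1.1) p.1.2.1.2 = w (φ p.1.1.2) p.1.2.2.2)
    (fun p => p.1.1.1) (q ^ 2) (sq_nonneg q)
    ((Fintype.card I : ℝ) ^ 2 * (Fintype.card Jt : ℝ) ^ 4) (by
      have h2 := Fintype.card_subtype_le fun p : (I × I) × (Jt × Jt) × (Jt × Jt) =>
        p.1.1 ≠ p.1.2 ∧ p.2.1.1 ≠ p.2.1.2
      rw [Fintype.card_prod, Fintype.card_prod, Fintype.card_prod, Fintype.card_prod] at h2
      have h3 : (Fintype.card {p : (I × I) × (Jt × Jt) × (Jt × Jt) //
          p.1.1 ≠ p.1.2 ∧ p.2.1.1 ≠ p.2.1.2} : ℝ) ≤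
          ((Fintype.card I * Fintype.card I *
            (Fintype.card Jt * Fintype.card Jt * (Fintype.card Jt * Fintype.card Jt)) : ℕ) :
              ℝ) := by
        exact_mod_cast h2
      refine h3.trans (le_of_eq ?_)
      push_cast
      ring) (by
      rintro ⟨⟨⟨i, i'⟩, ⟨j, k⟩, ⟨j', k'⟩⟩, h1, h2⟩ hdec
      have h := bad_core (Q := Unit) (fun _ => i) (fun _ _ _ => rfl)
        (fun φ _ => univ.filter fun ω => w ω j = w (φ i') j' ∧ w ω k = w (φ i') k')
        (fun φ φ' hφ => by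
          funext x
          rw [hφ i' (by rintro ⟨x, hx⟩; exact h1 hx)]) (q ^ 2)
        (fun φ _ => hpair j k h2 _ _)
      rw [Fintype.card_unit, pow_one] at h
      refine le_trans (le_of_eq ?_) h
      congr 2
      ext φ
      simp)
  refine ⟨R, fun φ i i' j k j' k' hi h1 h2 h3 h4 h5 => ?_, hs⟩
  exact hi (hR φ ⟨((i, i'), (j, k), (j', k')), h1, h2⟩ ⟨h4, h5⟩)

private theorem bad_fan' (a : ℕ) :
    ∃ R : (I → Ω) → Finset I,
      (∀ φ (i₀ : I) (f : Fin n) (j : Fin a → Jt) (i : Fin a → I) (k k' : Fin a → Jt), i₀ ∉ R φ →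
        Function.Injective i → (∀ l, i l ≠ i₀) → (∀ l, k l ≠ k' l) →
        (∀ l, w (φ (i l)) (k l) = w (φ i₀) (j l)) → (∀ l, w (φ (i l)) (k' l) = f) → False) ∧
      (∑ φ, ((R φ).card : ℝ)) ≤
        ((Fintype.card I : ℝ) ^ (a + 1) * (Fintype.card Jt : ℝ) ^ (3 * a) * n) *
          (q ^ 2) ^ a * Fintype.card (I → Ω) := by
  obtain ⟨R, hR, hs⟩ := bad_gen (I := I) (Ω := Ω)
    (P := {x : I × Fin n × (Fin a → Jt) × (Fin a → I) × (Fin a → Jt) × (Fin a → Jt) //
      Function.Injective x.2.2.2.1 ∧ (∀ l, x.2.2.2.1 l ≠ x.1) ∧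
        ∀ l, x.2.2.2.2.1 l ≠ x.2.2.2.2.2 l})
    (fun x φ => ∀ l, w (φ (x.1.2.2.2.1 l)) (x.1.2.2.2.2.1 l) = w (φ x.1.1) (x.1.2.2.1 l) ∧
      w (φ (x.1.2.2.2.1 l)) (x.1.2.2.2.2.2 l) = x.1.2.1)
    (fun x => x.1.1) ((q ^ 2) ^ a) (by positivity)
    ((Fintype.card I : ℝ) ^ (a + 1) * (Fintype.card Jt : ℝ) ^ (3 * a) * n) (by
      have h1 := Fintype.card_subtype_le
        (fun x : I × Fin n × (Fin a → Jt) × (Fin a → I) × (Fin a → Jt) × (Fin a → Jt) =>
          Function.Injective x.2.2.2.1 ∧ (∀ l, x.2.2.2.1 l ≠ x.1) ∧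
            ∀ l, x.2.2.2.2.1 l ≠ x.2.2.2.2.2 l)
      have h2 : Fintype.card (I × Fin n × (Fin a → Jt) × (Fin a → I) × (Fin a → Jt) ×
          (Fin a → Jt)) =
          Fintype.card I ^ (a + 1) * Fintype.card Jt ^ (3 * a) * n := by
        simp only [Fintype.card_prod, Fintype.card_fun, Fintype.card_fin]
        ring
      rw [h2] at h1
      exact_mod_cast h1) (by
      rintro ⟨⟨i0, f, j, i, k, k'⟩, h1, h2, h3⟩ hdec
      have h := bad_core (Q := Fin a) i h1
        (fun φ l => univ.filter fun ω => w ω (k l) = w (φ i0) (j l) ∧ w ω (k' l) = f)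
        (fun φ φ' hφ => by
          funext x
          rw [hφ i0 (by rintro ⟨x, hx⟩; exact h2 x hx)]) (q ^ 2)
        (fun φ l => hpair (k l) (k' l) (h3 l) _ _)
      rw [Fintype.card_fin] at h
      refine le_trans (le_of_eq ?_) h
      congr 2
      ext φ
      simp)
  refine ⟨R, fun φ i₀ f j i k k' h0 hi hi0 hkk h1 h2 => ?_, hs⟩
  exact h0 (hR φ ⟨(i₀, f, j, i, k, k'), hi, hi0, hkk⟩ fun l => ⟨h1 l, h2 l⟩)

private theorem bad_web' (h : ℕ) (hh : 2 ≤ h) :
    ∃ R : (I → Ω) → Finset I,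
      (∀ φ (f : Fin h → Fin n) (i : Pairs h → I) (k k' : Pairs h → Jt), (∀ q, i q ∉ R φ) →
        Function.Injective i → (∀ q, k q ≠ k' q) → (∀ q, w (φ (i q)) (k q) = f q.1.1) →
        (∀ q, w (φ (i q)) (k' q) = f q.1.2) → False) ∧
      (∑ φ, ((R φ).card : ℝ)) ≤
        (((Fintype.card I : ℝ) * (Fintype.card Jt : ℝ) ^ 2) ^ Fintype.card (Pairs h) *
          (n : ℝ) ^ h) * (q ^ 2) ^ Fintype.card (Pairs h) * Fintype.card (I → Ω) := by
  have q0 : Pairs h := ⟨(⟨0, by omega⟩, ⟨1, by omega⟩), by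
    rw [Fin.lt_def]; exact Nat.zero_lt_one⟩
  obtain ⟨R, hR, hs⟩ := bad_gen (I := I) (Ω := Ω)
    (P := {t : (Fin h → Fin n) × (Pairs h → I) × (Pairs h → Jt) × (Pairs h → Jt) //
      Function.Injective t.2.1 ∧ ∀ q, t.2.2.1 q ≠ t.2.2.2 q})
    (fun t φ => ∀ q, w (φ (t.1.2.1 q)) (t.1.2.2.1 q) = t.1.1 q.1.1 ∧
      w (φ (t.1.2.1 q)) (t.1.2.2.2 q) = t.1.1 q.1.2)
    (fun t => t.1.2.1 q0) ((q ^ 2) ^ Fintype.card (Pairs h)) (by positivity)
    (((Fintype.card I : ℝ) * (Fintype.card Jt : ℝ) ^ 2) ^ Fintype.card (Pairs h) *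
          (n : ℝ) ^ h) (by
      have h1 := Fintype.card_subtype_le
        (fun t : (Fin h → Fin n) × (Pairs h → I) × (Pairs h → Jt) × (Pairs h → Jt) =>
          Function.Injective t.2.1 ∧ ∀ q, t.2.2.1 q ≠ t.2.2.2 q)
      have h2 : Fintype.card ((Fin h → Fin n) × (Pairs h → I) × (Pairs h → Jt) ×
          (Pairs h → Jt)) =
          (Fintype.card I * Fintype.card Jt ^ 2) ^ Fintype.card (Pairs h) * n ^ h := by
        rw [Fintype.card_prod, Fintype.card_prod, Fintype.card_prod, Fintype.card_fun,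
          Fintype.card_fun, Fintype.card_fun, Fintype.card_fin, Fintype.card_fin, mul_pow,
          ← pow_mul, mul_comm 2, pow_mul, sq]
        ring
      rw [h2] at h1
      exact_mod_cast h1) (by
      rintro ⟨⟨f, i, k, k'⟩, h1, h2⟩ hdec
      have h := bad_core (Q := Pairs h) i h1
        (fun φ x => univ.filter fun ω => w ω (k x) = f x.1.1 ∧ w ω (k' x) = f x.1.2)
        (fun φ φ' hφ => rfl) (q ^ 2)
        (fun φ x => hpair (k x) (k' x) (h2 x) _ _)
      refine le_trans (le_of_eq ?_) h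
      congr 2
      ext φ
      simp)
  refine ⟨R, fun φ f i k k' hi hinj hk h1 h2 => ?_, hs⟩
  exact hi q0 (hR φ ⟨(f, i, k, k'), hinj, hk⟩ fun x => ⟨h1 x, h2 x⟩)

end

open Classical in
theorem bad_exists {I Ω Jt : Type} [Fintype I] [Fintype Ω] [Nonempty Ω] [Fintype Jt] {n : ℕ}
    (w : Ω → Jt → Fin n) (q : ℝ) (hq : 0 ≤ q)
    (hpair : ∀ j k, j ≠ k → ∀ u v,
      ((univ.filter fun ω => w ω j = u ∧ w ω k = v).card : ℝ) ≤ q ^ 2 * Fintype.card Ω)
    (a h : ℕ) (ha : 1 ≤ a) (hh : 2 ≤ h) :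
    ∃ (φ : I → Ω) (R : Finset I),
      (R.card : ℝ) ≤ badq (Fintype.card I) (Fintype.card Jt) n q a h ∧
      NoBad a h fun i : {i // i ∉ R} => w (φ i.1) := by
  have hpair' : ∀ j k, j ≠ k → ∀ u v,
      ((univ.filter fun ω => w ω j = u ∧ w ω k = v).card : ℝ) ≤ q ^ 2 * Fintype.card Ω := by
    intro j k hjk u v
    refine le_trans (le_of_eq ?_) (hpair j k hjk u v)
    congr
  obtain ⟨R1, h1, s1⟩ := bad_inj' (I := I) w q hpair'
  obtain ⟨R2, h2, s2⟩ := bad_share' (I := I) w q hpair'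
  obtain ⟨R3, h3, s3⟩ := bad_fan' (I := I) w q hpair' a
  obtain ⟨R4, h4, s4⟩ := bad_web' (I := I) w q hpair' h hh
  have hcard : ∀ φ, ((R1 φ ∪ R2 φ ∪ R3 φ ∪ R4 φ).card : ℝ) ≤
      ((R1 φ).card : ℝ) + (R2 φ).card + (R3 φ).card + (R4 φ).card := by
    intro φ
    have a1 := card_union_le (R1 φ ∪ R2 φ ∪ R3 φ) (R4 φ)
    have a2 := card_union_le (R1 φ ∪ R2 φ) (R3 φ)
    have a3 := card_union_le (R1 φ) (R2 φ)
    have a4 : (R1 φ ∪ R2 φ ∪ R3 φ ∪ R4 φ).card ≤
      (R1 φ).card + (R2 φ).card + (R3 φ).card + (R4 φ).card := by omega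
    exact_mod_cast a4
  have hsum : ∑ φ : I → Ω, ((R1 φ ∪ R2 φ ∪ R3 φ ∪ R4 φ).card : ℝ) ≤
      ∑ _φ : I → Ω, badq (Fintype.card I) (Fintype.card Jt) n q a h := by
    refine (sum_le_sum fun φ _ => hcard φ).trans ?_
    rw [sum_add_distrib, sum_add_distrib, sum_add_distrib, sum_const, card_univ, nsmul_eq_mul]
    unfold badq
    rw [pow_mul q 2 a, pow_mul q 2 (Fintype.card (Pairs h))]
    rw [mul_add, mul_add, mul_add]
    linarith
  obtain ⟨φ, -, hφ⟩ := Finset.exists_le_of_sum_le (s := (univ : Finset (I → Ω)))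
    univ_nonempty hsum
  refine ⟨φ, R1 φ ∪ R2 φ ∪ R3 φ ∪ R4 φ, hφ, ?_⟩
  have hl' : ∀ l : {i // i ∉ R1 φ ∪ R2 φ ∪ R3 φ ∪ R4 φ},
      l.1 ∉ R1 φ ∧ l.1 ∉ R2 φ ∧ l.1 ∉ R3 φ ∧ l.1 ∉ R4 φ := by
    intro l
    have := l.2
    simp only [mem_union, not_or] at this
    tauto
  refine ⟨?_, ?_, ?_, ?_⟩
  · intro i
    exact h1 φ i.1 (hl' i).1
  · intro i i' j k j' k' hi hj hj' e1 e2
    exact h2 φ i.1 i'.1 j k j' k' (hl' i).2.1 (fun h => hi (Subtype.ext h)) hj hj' e1 e2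
  · intro i₀ f j i k k' hj hi hne hk e1 e2
    exact h3 φ i₀.1 f j (fun l => (i l).1) k k' (hl' i₀).2.2.1
      (fun a b hab => hi (Subtype.ext hab)) (fun l h => hne l (Subtype.ext h)) hk e1 e2
  · intro f i k k' hi hk e1 e2
    exact h4 φ f (fun q => (i q).1) k k' (fun q => (hl' (i q)).2.2.2)
      (fun a b hab => hi (Subtype.ext hab)) hk e1 e2

end Pool.Agent.RV
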