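import Mathlib
import Pool.Agent.Lib.MP_0a1b52_lc_RV.Defs

/-!
# Pair probabilities of a random gadget
-/

set_option autoImplicit false

namespace Pool.Agent.RV

open Finset Pool.Agent.FP Pool.Agent.RP

private theorem mprod {A B : Type} (p : A → Prop) (q : B → Prop) (c d : ℝ) (hc : 0 ≤ c)
    (hp : (Nat.card {x // p x} : ℝ) ≤ c * Nat.card A)
    (hq : (Nat.card {x // q x} : ℝ) ≤ d * Nat.card B) :
    (Nat.card {x : A × B // p x.1 ∧ q x.2} : ℝ) ≤ c * d * Nat.card (A × B) := by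
  rw [Nat.card_congr Equiv.subtypeProdEquivProd, Nat.card_prod, Nat.card_prod]
  push_cast
  have h1 := mul_le_mul hp hq (Nat.cast_nonneg _) (mul_nonneg hc (Nat.cast_nonneg _))
  refine h1.trans (le_of_eq ?_)
  ring

private theorem mtrue (B : Type) : (Nat.card {_x : B // True} : ℝ) ≤ 1 * Nat.card B := by
  rw [Nat.card_congr (Equiv.subtypeUnivEquiv fun _ => trivial), one_mul]

private theorem m1 {ι : Type} [DecidableEq ι] {α : ι → Type} (i : ι) (p : α i → Prop) (c : ℝ)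
    (hc : 0 ≤ c) (hp : (Nat.card {x // p x} : ℝ) ≤ c * Nat.card (α i)) :
    (Nat.card {f : ∀ j, α j // p (f i)} : ℝ) ≤ c * Nat.card (∀ j, α j) := by
  have e : {f : ∀ j, α j // p (f i)} ≃ {x : α i × (∀ j : {j // j ≠ i}, α j) // p x.1 ∧ True} :=
    (Equiv.piSplitAt i α).subtypeEquiv fun f => by simp [Equiv.piSplitAt]
  rw [Nat.card_congr e, Nat.card_congr (Equiv.piSplitAt i α)]
  have := mprod p (fun _ : (∀ j : {j // j ≠ i}, α j) => True) c 1 hc hp (mtrue _)
  rwa [mul_one] at this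

private theorem m2 {ι : Type} [DecidableEq ι] {α : ι → Type} (i i' : ι) (h : i ≠ i')
    (p : α i → Prop) (q : α i' → Prop) (c d : ℝ) (hc : 0 ≤ c) (hd : 0 ≤ d)
    (hp : (Nat.card {x // p x} : ℝ) ≤ c * Nat.card (α i))
    (hq : (Nat.card {x // q x} : ℝ) ≤ d * Nat.card (α i')) :
    (Nat.card {f : ∀ j, α j // p (f i) ∧ q (f i')} : ℝ) ≤ c * d * Nat.card (∀ j, α j) := by
  have e : {f : ∀ j, α j // p (f i) ∧ q (f i')} ≃
      {x : α i × (∀ j : {j // j ≠ i}, α j) // p x.1 ∧ q (x.2 ⟨i', h.symm⟩)} :=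
    (Equiv.piSplitAt i α).subtypeEquiv fun f => by simp [Equiv.piSplitAt]
  rw [Nat.card_congr e, Nat.card_congr (Equiv.piSplitAt i α)]
  have h3 : (Nat.card {g : (∀ j : {j // j ≠ i}, α j) // q (g ⟨i', h.symm⟩)} : ℝ) ≤
      d * Nat.card (∀ j : {j // j ≠ i}, α j) :=
    m1 (ι := {j // j ≠ i}) (α := fun j : {j // j ≠ i} => α j) ⟨i', h.symm⟩ q d hd hq
  exact mprod p (fun g : (∀ j : {j // j ≠ i}, α j) => q (g ⟨i', h.symm⟩)) c d hc hp h3

private theorem edge_pos {n : ℕ} (N : ℕ) (Y : Finset (EdgeVar n)) (q : ℝ)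
    (h : (n : ℝ) ≤ q * (Y.filter fun e => (e.1.2 : ℕ) < N).card) (b : Bool) (u : Fin n) :
    (Nat.card {x : {e : EdgeVar n // e ∈ Y ∧ (e.1.2 : ℕ) < N} //
      (if b then x.1.1.2 else x.1.1.1) = u} : ℝ) ≤
      q * Nat.card {e : EdgeVar n // e ∈ Y ∧ (e.1.2 : ℕ) < N} := by
  have h1 : Nat.card {e : EdgeVar n // e ∈ Y ∧ (e.1.2 : ℕ) < N} =
      (Y.filter fun e => (e.1.2 : ℕ) < N).card := Nat.subtype_card _ fun x => by simp
  rw [h1]
  refine le_trans ?_ h
  have h2 : Nat.card {x : {e : EdgeVar n // e ∈ Y ∧ (e.1.2 : ℕ) < N} //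
      (if b then x.1.1.2 else x.1.1.1) = u} ≤ Nat.card (Fin n) := by
    refine Nat.card_le_card_of_injective (fun x => if b then x.1.1.1.1 else x.1.1.1.2) ?_
    rintro ⟨⟨⟨⟨a, c⟩, hac⟩, hx⟩, hx'⟩ ⟨⟨⟨⟨a', c'⟩, hac'⟩, hy⟩, hy'⟩ hxy
    cases b
    · have h5 : a = u := hx'
      have h6 : a' = u := hy'
      have h7 : c = c' := hxy
      subst h5 h7
      simp only [h6]
    · have h5 : c = u := hx'
      have h6 : c' = u := hy'
      have h7 : a = a' := hxy
      subst h5 h7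
      simp only [h6]
  rw [Nat.card_eq_fintype_card (α := Fin n), Fintype.card_fin] at h2
  exact_mod_cast h2

private theorem edge_two {n : ℕ} (N : ℕ) (Y : Finset (EdgeVar n)) (q : ℝ) (hq : 0 ≤ q)
    (h : (n : ℝ) ≤ q * (Y.filter fun e => (e.1.2 : ℕ) < N).card) (u v : Fin n) :
    (Nat.card {x : {e : EdgeVar n // e ∈ Y ∧ (e.1.2 : ℕ) < N} //
      x.1.1.1 = u ∧ x.1.1.2 = v} : ℝ) ≤
      q ^ 2 * Nat.card {e : EdgeVar n // e ∈ Y ∧ (e.1.2 : ℕ) < N} := by
  have h1 : Nat.card {e : EdgeVar n // e ∈ Y ∧ (e.1.2 : ℕ) < N} =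
      (Y.filter fun e => (e.1.2 : ℕ) < N).card := Nat.subtype_card _ fun x => by simp
  have h2 : Nat.card {x : {e : EdgeVar n // e ∈ Y ∧ (e.1.2 : ℕ) < N} //
      x.1.1.1 = u ∧ x.1.1.2 = v} ≤ 1 := by
    rw [Finite.card_le_one_iff_subsingleton]
    constructor
    rintro ⟨⟨⟨⟨a, c⟩, hac⟩, hx⟩, hx1, hx2⟩ ⟨⟨⟨⟨a', c'⟩, hac'⟩, hy⟩, hy1, hy2⟩
    simp only at hx1 hx2 hy1 hy2
    subst hx1 hx2
    simp only [hy1, hy2]
  have h3 : Nat.card {e : EdgeVar n // e ∈ Y ∧ (e.1.2 : ℕ) < N} ≤ n * n := by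
    have h4 : Nat.card {e : EdgeVar n // e ∈ Y ∧ (e.1.2 : ℕ) < N} ≤ Nat.card (Fin n × Fin n) := by
      refine Nat.card_le_card_of_injective (fun x => x.1.1) ?_
      intro x y hxy
      exact Subtype.ext (Subtype.ext hxy)
    rwa [Nat.card_prod, Nat.card_eq_fintype_card (α := Fin n), Fintype.card_fin] at h4
  have hn : (1 : ℝ) ≤ n := by
    have : 1 ≤ n := by
      have := u.2
      omega
    exact_mod_cast this
  rw [← h1] at h
  set m : ℝ := (Nat.card {e : EdgeVar n // e ∈ Y ∧ (e.1.2 : ℕ) < N} : ℝ) with hm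
  have h3' : m ≤ (n : ℝ) * n := by
    rw [hm]
    exact_mod_cast h3
  have h2' : (Nat.card {x : {e : EdgeVar n // e ∈ Y ∧ (e.1.2 : ℕ) < N} //
      x.1.1.1 = u ∧ x.1.1.2 = v} : ℝ) ≤ 1 := by exact_mod_cast h2
  refine h2'.trans ?_
  have hm0 : 0 ≤ m := Nat.cast_nonneg _
  have hm1 : 0 < m := by
    rcases hm0.eq_or_lt with h5 | h5
    · rw [← h5, mul_zero] at h
      linarith
    · exact h5
  have h6 : (n : ℝ) * n ≤ (q * m) * (q * m) := mul_le_mul h h (by linarith) (by positivity)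
  have h7 : m ≤ q ^ 2 * m * m := by
    calc m ≤ (n : ℝ) * n := h3'
      _ ≤ (q * m) * (q * m) := h6
      _ = q ^ 2 * m * m := by ring
  have h8 : 1 * m ≤ (q ^ 2 * m) * m := by linarith
  exact le_of_mul_le_mul_right h8 hm1

private theorem free_pos {n N : ℕ} (hN : N ≤ n) (q : ℝ) (h : 1 ≤ q * N) (u : Fin n) :
    (Nat.card {x : Fin N // Fin.castLE hN x = u} : ℝ) ≤ q * Nat.card (Fin N) := by
  rw [Nat.card_eq_fintype_card (α := Fin N), Fintype.card_fin]
  refine le_trans ?_ h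
  have h2 : Nat.card {x : Fin N // Fin.castLE hN x = u} ≤ 1 := by
    rw [Finite.card_le_one_iff_subsingleton]
    constructor
    rintro ⟨x, hx⟩ ⟨y, hy⟩
    exact Subtype.ext (Fin.castLE_injective hN (hx.trans hy.symm))
  exact_mod_cast h2

open Classical in
theorem pair_bound {n K z N : ℕ} (hN : N ≤ n) (X : Fin K → Finset (EdgeVar n)) (q : ℝ)
    (hq : 0 ≤ q) (h1 : ∀ t, (n : ℝ) ≤ q * ((X t).filter fun e => (e.1.2 : ℕ) < N).card)
    (h2 : 1 ≤ q * N) (j k : RK.J K z) (hjk : j ≠ k) (u v : Fin n) :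
    ((univ.filter fun ω : Cont X z N => vert hN X ω j = u ∧ vert hN X ω k = v).card : ℝ) ≤
      q ^ 2 * Fintype.card (Cont X z N) := by
  have h3 : (univ.filter fun ω : Cont X z N => vert hN X ω j = u ∧ vert hN X ω k = v).card =
      Nat.card {ω : Cont X z N // vert hN X ω j = u ∧ vert hN X ω k = v} :=
    (Nat.subtype_card _ fun x => by simp).symm
  rw [h3, ← Nat.card_eq_fintype_card]
  have hv : ∀ (ω : Cont X z N) (t : Fin K) (b : Bool), vert hN X ω (.inl (t, b)) =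
      if b then (ω.1 t).1.1.2 else (ω.1 t).1.1.1 := by
    intro ω t b
    cases b <;> rfl
  rcases j with ⟨t, b⟩ | s <;> rcases k with ⟨t', b'⟩ | s'
  · by_cases ht : t = t'
    · subst ht
      have hb : b' = !b := by
        cases b <;> cases b' <;> simp_all
      subst hb
      have h4 : ∀ u v : Fin n, (Nat.card {ω : Cont X z N // ((ω.1 t).1.1.1 = u ∧
          (ω.1 t).1.1.2 = v) ∧ True} : ℝ) ≤ q ^ 2 * Nat.card (Cont X z N) := by
        intro u v
        have h5 := mprod (fun f : (∀ t : Fin K, {e : EdgeVar n // e ∈ X t ∧ (e.1.2 : ℕ) < N}) =>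
          (f t).1.1.1 = u ∧ (f t).1.1.2 = v) (fun _ : Fin z → Fin N => True) (q ^ 2) 1
          (by positivity) (m1 (α := fun t : Fin K => {e : EdgeVar n // e ∈ X t ∧ (e.1.2 : ℕ) < N}) t
            (fun x => x.1.1.1 = u ∧ x.1.1.2 = v) (q ^ 2) (by positivity)
            (edge_two N (X t) q hq (h1 t) u v)) (mtrue _)
        rw [mul_one] at h5
        exact h5
      cases b
      · refine le_trans (le_of_eq ?_) (h4 u v)
        refine congrArg _ (Nat.card_congr (Equiv.subtypeEquivRight fun ω => ?_))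
        rw [hv, hv, and_true]
        rfl
      · refine le_trans (le_of_eq ?_) (h4 v u)
        refine congrArg _ (Nat.card_congr (Equiv.subtypeEquivRight fun ω => ?_))
        rw [hv, hv, and_true]
        exact and_comm
    · have h5 := mprod (fun f : (∀ t : Fin K, {e : EdgeVar n // e ∈ X t ∧ (e.1.2 : ℕ) < N}) =>
          (if b then (f t).1.1.2 else (f t).1.1.1) = u ∧
            (if b' then (f t').1.1.2 else (f t').1.1.1) = v) (fun _ : Fin z → Fin N => True)
          (q * q) 1 (by positivity)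
          (m2 (α := fun t : Fin K => {e : EdgeVar n // e ∈ X t ∧ (e.1.2 : ℕ) < N}) t t' ht
            (fun x => (if b then x.1.1.2 else x.1.1.1) = u)
            (fun x => (if b' then x.1.1.2 else x.1.1.1) = v) q q hq hq
            (edge_pos N (X t) q (h1 t) b u) (edge_pos N (X t') q (h1 t') b' v)) (mtrue _)
      rw [mul_one, ← sq] at h5
      refine le_trans (le_of_eq ?_) h5
      refine congrArg _ (Nat.card_congr (Equiv.subtypeEquivRight fun ω => ?_))
      rw [hv, hv, and_true]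
  · have h5 := mprod (fun f : (∀ t : Fin K, {e : EdgeVar n // e ∈ X t ∧ (e.1.2 : ℕ) < N}) =>
        (if b then (f t).1.1.2 else (f t).1.1.1) = u)
        (fun g : Fin z → Fin N => Fin.castLE hN (g s') = v) q q hq
        (m1 (α := fun t : Fin K => {e : EdgeVar n // e ∈ X t ∧ (e.1.2 : ℕ) < N}) t
          (fun x => (if b then x.1.1.2 else x.1.1.1) = u) q hq
          (edge_pos N (X t) q (h1 t) b u))
        (m1 (α := fun _ : Fin z => Fin N) s' (fun x => Fin.castLE hN x = v) q hq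
          (free_pos hN q h2 v))
    rw [← sq] at h5
    refine le_trans (le_of_eq ?_) h5
    refine congrArg _ (Nat.card_congr (Equiv.subtypeEquivRight fun ω => ?_))
    rw [hv]
    rfl
  · have h5 := mprod (fun f : (∀ t : Fin K, {e : EdgeVar n // e ∈ X t ∧ (e.1.2 : ℕ) < N}) =>
        (if b' then (f t').1.1.2 else (f t').1.1.1) = v)
        (fun g : Fin z → Fin N => Fin.castLE hN (g s) = u) q q hq
        (m1 (α := fun t : Fin K => {e : EdgeVar n // e ∈ X t ∧ (e.1.2 : ℕ) < N}) t'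
          (fun x => (if b' then x.1.1.2 else x.1.1.1) = v) q hq
          (edge_pos N (X t') q (h1 t') b' v))
        (m1 (α := fun _ : Fin z => Fin N) s (fun x => Fin.castLE hN x = u) q hq
          (free_pos hN q h2 u))
    rw [← sq] at h5
    refine le_trans (le_of_eq ?_) h5
    refine congrArg _ (Nat.card_congr (Equiv.subtypeEquivRight fun ω => ?_))
    rw [hv]
    exact and_comm
  · have hs : s ≠ s' := fun h => hjk (by rw [h])
    have h5 := mprod (fun _ : (∀ t : Fin K, {e : EdgeVar n // e ∈ X t ∧ (e.1.2 : ℕ) < N}) => True)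
        (fun g : Fin z → Fin N => Fin.castLE hN (g s) = u ∧ Fin.castLE hN (g s') = v) 1 (q * q)
        zero_le_one (mtrue _)
        (m2 (α := fun _ : Fin z => Fin N) s s' hs (fun x => Fin.castLE hN x = u)
          (fun x => Fin.castLE hN x = v) q q hq hq
          (free_pos hN q h2 u) (free_pos hN q h2 v))
    rw [one_mul, ← sq] at h5
    refine le_trans (le_of_eq ?_) h5
    refine congrArg _ (Nat.card_congr (Equiv.subtypeEquivRight fun ω => ?_))
    rw [true_and]
    rfl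

end Pool.Agent.RV
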