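import Mathlib
import Pool.Agent.Lib.MP_0a1b52_lc_RQ.Core
import Pool.Agent.Lib.MP_0a1b52_lc_RV.Bad
import Pool.Agent.Lib.MP_0a1b52_lc_RV.Pair

/-!
# Local proofs with fixed sets, module Core
-/

set_option autoImplicit false

namespace Pool.Agent.RV

open Finset Pool.Agent.FP Pool.Agent.RP Pool.Agent.RK Pool.Agent.RQ

private theorem core_restrict {I L Jt Vt : Type} {a h : ℕ} {w : I → Jt → Vt} (hw : NoBad a h w)
    (e : L → I) (he : Function.Injective e) : NoBad a h fun l => w (e l) where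
  inj l := hw.inj (e l)
  share i i' j k j' k' hi hj hj' e1 e2 :=
    hw.share (e i) (e i') j k j' k' (fun h => hi (he h)) hj hj' e1 e2
  fan i₀ f j i k k' hj hi hne hk e1 e2 :=
    hw.fan (e i₀) f j (fun l => e (i l)) k k' hj (fun a b hab => hi (he hab))
      (fun l h => hne l (he h)) hk e1 e2
  web f i k k' hi hk e1 e2 :=
    hw.web f (fun q => e (i q)) k k' (fun a b hab => hi (he hab)) hk e1 e2

open Classical in
theorem coreF {a h n N G P z : ℕ} (hP : 0 < P) (hN : N + (Nat.sqrt n + 2) ≤ n) (hN1 : 1 ≤ N)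
    (ha : 1 ≤ a) (hh : 2 ≤ h) (hz : a * h ^ 2 ≤ z + 2 * (P + 1))
    (hzn : z + 2 * (P + 1) ≤ Nat.sqrt n) (X : Fin (P + 1) → Finset (EdgeVar n)) (q : ℝ)
    (hq : 0 ≤ q) (h1 : ∀ t, (n : ℝ) ≤ q * ((X t).filter fun e => (e.1.2 : ℕ) < N).card)
    (h2 : 1 ≤ q * N) (b : ℝ)
    (hb : badq (G * 4 ^ (P + 2)) (z + 2 * (P + 1)) n q a h ≤ b) :
    ∃ (M : ℕ) (Q : Fin M → EdgeVar n → Bool), 0 < M ∧ (∀ i, ¬ Clq (Q i)) ∧
      ∀ T : (EdgeVar n → Bool) → Prop, StarK X T → (∀ x, T x → ¬ Clq x) →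
        ((univ.filter fun i => T (Q i)).card : ℝ) ≤ M * (2 : ℝ) ^ (-((G : ℝ) - b)) := by
  have hNn : N ≤ n := by omega
  have hn0 : (0 : ℝ) < n := by
    have : 0 < n := by omega
    exact_mod_cast this
  have hne : Nonempty (Cont X z N) := by
    have hx : ∀ t, Nonempty {e : EdgeVar n // e ∈ X t ∧ (e.1.2 : ℕ) < N} := by
      intro t
      have h3 : ((X t).filter fun e => (e.1.2 : ℕ) < N).Nonempty := by
        rw [nonempty_iff_ne_empty]
        intro h0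
        have h4 := h1 t
        rw [h0, card_empty, Nat.cast_zero, mul_zero] at h4
        linarith
      obtain ⟨e, he⟩ := h3
      exact ⟨⟨e, (mem_filter.1 he)⟩⟩
    exact ⟨(fun t => (hx t).some, fun _ => ⟨0, by omega⟩)⟩
  obtain ⟨φ, R, hR, hNB⟩ := bad_exists (I := Fin G × Fin (4 ^ (P + 2))) (Jt := RK.J (P + 1) z)
    (fun ω : Cont X z N => vert hNn X ω) q hq (pair_bound hNn X q hq h1 h2) a h ha hh
  rw [core_card, Fintype.card_prod, Fintype.card_fin, Fintype.card_fin] at hR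
  let Λ : Finset (Fin G) := univ.filter fun τ => ∀ s, (τ, s) ∉ R
  let w : Fin G × Fin (4 ^ (P + 2)) → RK.J (P + 1) z → Fin n := fun i => vert hNn X (φ i)
  have hΛ : (G : ℝ) - b ≤ Λ.card := by
    have e1 : (univ : Finset (Fin G)) ⊆ Λ ∪ R.image Prod.fst := by
      intro τ _
      by_cases hτ : ∀ s, (τ, s) ∉ R
      · exact mem_union_left _ (mem_filter.2 ⟨mem_univ _, hτ⟩)
      · push Not at hτ
        obtain ⟨s, hs⟩ := hτ
        exact mem_union_right _ (mem_image.2 ⟨(τ, s), hs, rfl⟩)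
    have e2 := (card_le_card e1).trans (card_union_le _ _)
    rw [card_univ, Fintype.card_fin] at e2
    have e3 : G ≤ Λ.card + R.card := e2.trans (Nat.add_le_add_left card_image_le _)
    have e4 : (G : ℝ) ≤ Λ.card + R.card := by exact_mod_cast e3
    linarith
  have hsub : ∀ i : {i : Fin G × Fin (4 ^ (P + 2)) // i.1 ∈ Λ}, i.1 ∉ R := by
    rintro ⟨⟨τ, s⟩, hi⟩
    exact (mem_filter.1 hi).2 s
  have hNB' : NoBad a h fun i : {i : Fin G × Fin (4 ^ (P + 2)) // i.1 ∈ Λ} => w i.1 :=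
    core_restrict hNB (fun i : {i : Fin G × Fin (4 ^ (P + 2)) // i.1 ∈ Λ} =>
      (⟨i.1, hsub i⟩ : {i // i ∉ R})) fun i i' h => Subtype.ext (congrArg (fun z => z.1) h)
  have hlt : ∀ (ω : Cont X z N) (j : RK.J (P + 1) z), (vert hNn X ω j : ℕ) < N := by
    rintro ω (⟨t, b⟩ | s)
    · have h3 := (ω.1 t).1.2
      have h4 := (ω.1 t).2.2
      cases b
      · exact lt_trans h3 h4
      · exact h4
    · exact (ω.2 s).2
  have hcl : ∀ q : Inp G (4 ^ (P + 2)) P, Clq (core_gr Λ w q) ↔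
      ∃ i : Fin G × Fin (4 ^ (P + 2)), i.1 ∈ Λ ∧
        ∀ t, (Fin.cons q.2 q.1 : Fin (P + 1) → Fin G × Fin (4 ^ (P + 2)) → Bool) t i = true := by
    intro q
    unfold core_gr
    rw [clq_iff (Nat.succ_pos P) (fun i : {i : Fin G × Fin (4 ^ (P + 2)) // i.1 ∈ Λ} => w i.1)
      hzn ?_ hNB'.inj ?_ ?_]
    · constructor
      · rintro ⟨i, hi⟩
        exact ⟨i.1, i.2, hi⟩
      · rintro ⟨i, hi, h⟩
        exact ⟨⟨i, hi⟩, h⟩
    · intro i j
      have h4 := hlt (φ i.1) j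
      show (vert hNn X (φ i.1) j : ℕ) + (Nat.sqrt n + 1) ≤ n - 1
      omega
    · intro i i' j k j' k' hne hj e1 e2
      refine hNB'.share i i' j k j' k' hne hj ?_ e1 e2
      rintro rfl
      exact hj (hNB'.inj i (e1.trans e2.symm))
    · intro S hS hcov
      have hJ := core_card (P + 1) z
      exact hNB'.clique ha hh (by rw [hJ]; exact hz) S (by rw [hJ]; exact hS) hcov
  have hB : 0 < 4 ^ (P + 2) := by positivity
  have hZpos : 0 < (ZZ (Fin G) (4 ^ (P + 2)) P).card := card_pos.2 (ZZ_nonempty P hP hB)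
  let E := (ZZ (Fin G) (4 ^ (P + 2)) P).equivFin.symm
  refine ⟨(ZZ (Fin G) (4 ^ (P + 2)) P).card, fun i => core_gr Λ w (E i).1, hZpos, ?_, ?_⟩
  · intro i hc
    rw [hcl] at hc
    obtain ⟨j, -, hj⟩ := hc
    have h2 := ((mem_ZZ _).1 (E i).2).2 j fun k => by
      have h3 := hj k.succ
      rw [Fin.cons_succ] at h3
      exact h3
    have h4 := hj 0
    rw [Fin.cons_zero, h2] at h4
    exact absurd h4 (by simp)
  intro T hT hTC
  let A : Fin G → Finset (Fin (4 ^ (P + 2))) := fun τ => if τ ∈ Λ then univ else ∅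
  have e1 := core_one Λ w X hcl T hT hTC A (fun τ hτ => by simp only [A, if_neg hτ])
    (fun τ s hs t => ⟨((φ (τ, s)).1 t).1, ((φ (τ, s)).1 t).2.1, Or.inl rfl⟩)
  have hsum : (univ.filter fun i => T (core_gr Λ w (E i).1)).card =
      ((ZZ (Fin G) (4 ^ (P + 2)) P).filter fun q => T (core_gr Λ w q)).card := by
    rw [Finset.card_filter, Finset.card_filter]
    rw [Equiv.sum_comp E (fun b : ↥(ZZ (Fin G) (4 ^ (P + 2)) P) =>
      if T (core_gr Λ w b.1) then (1 : ℕ) else 0)]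
    exact Finset.sum_coe_sort (ZZ (Fin G) (4 ^ (P + 2)) P)
      (fun q => if T (core_gr Λ w q) then (1 : ℕ) else 0)
  rw [hsum]
  refine e1.trans ?_
  have e2 : ∀ q ∈ ZZ (Fin G) (4 ^ (P + 2)) P, (1 / 2 : ℝ) ^ (univ.filter fun τ =>
      4 ^ (P + 2) ≤ (A τ).card ∧ ∃ s ∈ A τ, ∀ k, q.1 k (τ, s) = true).card ≤
      (2 : ℝ) ^ (-((G : ℝ) - b)) := by
    intro q hq
    have hprom := ((mem_ZZ q).1 hq).1
    have e3 : Λ ⊆ univ.filter fun τ =>
        4 ^ (P + 2) ≤ (A τ).card ∧ ∃ s ∈ A τ, ∀ k, q.1 k (τ, s) = true := by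
      intro τ hτ
      obtain ⟨s, hs, -⟩ := hprom τ
      refine mem_filter.2 ⟨mem_univ _, ?_⟩
      simp only [A, if_pos hτ]
      exact ⟨by rw [card_univ, Fintype.card_fin], s, mem_univ _, hs⟩
    have e4 : (Λ.card : ℝ) ≤ ((univ.filter fun τ =>
        4 ^ (P + 2) ≤ (A τ).card ∧ ∃ s ∈ A τ, ∀ k, q.1 k (τ, s) = true).card : ℝ) := by
      exact_mod_cast card_le_card e3
    have e11 : ∀ k : ℕ, (1 / 2 : ℝ) ^ k = (2 : ℝ) ^ (-(k : ℝ)) := by
      intro k
      rw [Real.rpow_neg (by norm_num), Real.rpow_natCast, one_div, inv_pow]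
    rw [e11]
    exact Real.rpow_le_rpow_of_exponent_le (by norm_num) (by linarith)
  refine (sum_le_sum e2).trans (le_of_eq ?_)
  rw [sum_const, nsmul_eq_mul]

end Pool.Agent.RV
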