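import Mathlib
import Pool.Agent.Lib.MP_0a1b52_lc_RV.Defs

/-!
# Dense sets in few groups with large intersections
-/

set_option autoImplicit false

namespace Pool.Agent.RV

open Finset

/-- a greedy choice of `j` sets whose intersection is large -/
private theorem Group_greedy {V I : Type} [Fintype V] [DecidableEq V] [DecidableEq I]
    (Y : I → Finset V) (d : ℝ) (hd : 0 < d) (hd1 : d ≤ 1) (S : Finset I)
    (hY : ∀ i ∈ S, d * Fintype.card V ≤ (Y i).card) (t : ℕ)
    (hS : (t : ℝ) ≤ d * S.card / 4) (j : ℕ) (hj : j ≤ t) (ht : 1 ≤ t) :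
    ∃ G ⊆ S, G.card = j ∧ ∃ C : Finset V, (∀ v ∈ C, ∀ i ∈ G, v ∈ Y i) ∧
      (∀ v ∈ C, d * S.card / 2 ≤ ((S.filter fun i => v ∈ Y i).card : ℝ)) ∧
      (d / 4) ^ j * (d / 2) * Fintype.card V ≤ C.card := by
  have ht' : (1 : ℝ) ≤ t := by exact_mod_cast ht
  have hSpos : (0 : ℝ) < S.card := by
    by_contra hcon
    have h1 : (S.card : ℝ) ≤ 0 := not_lt.1 hcon
    have h2 : d * S.card / 4 ≤ 0 := by
      have := mul_nonpos_of_nonneg_of_nonpos hd.le h1
      linarith
    linarith
  induction j with
  | zero =>
    refine ⟨∅, Finset.empty_subset _, rfl,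
      univ.filter (fun v => d * S.card / 2 ≤ ((S.filter fun i => v ∈ Y i).card : ℝ)), ?_, ?_, ?_⟩
    · intro v _ i hi
      simp at hi
    · intro v hv
      exact (Finset.mem_filter.1 hv).2
    · rw [pow_zero, one_mul]
      obtain ⟨C, hC⟩ : ∃ C, C = univ.filter
        (fun v => d * S.card / 2 ≤ ((S.filter fun i => v ∈ Y i).card : ℝ)) := ⟨_, rfl⟩
      rw [← hC]
      have h1 : ∑ i ∈ S, ((Y i).card : ℝ) = ∑ v : V, ((S.filter fun i => v ∈ Y i).card : ℝ) := by
        have h2 : ∑ i ∈ S, (Y i).card = ∑ v : V, (S.filter fun i => v ∈ Y i).card := by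
          have h3 := Finset.sum_card_bipartiteAbove_eq_sum_card_bipartiteBelow
            (s := S) (t := (univ : Finset V)) (fun i v => v ∈ Y i)
          unfold Finset.bipartiteAbove Finset.bipartiteBelow at h3
          rw [← h3]
          apply Finset.sum_congr rfl
          intro i _
          congr 1
          ext v
          simp
        exact_mod_cast h2
      have h2 : (S.card : ℝ) * (d * Fintype.card V) ≤ ∑ i ∈ S, ((Y i).card : ℝ) := by
        rw [← nsmul_eq_mul]
        exact Finset.card_nsmul_le_sum _ _ _ fun i hi => hY i hi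
      have h3 : ∑ v : V, ((S.filter fun i => v ∈ Y i).card : ℝ) ≤
          C.card * (S.card : ℝ) + (Fintype.card V : ℝ) * (d * S.card / 2) := by
        rw [← Finset.sum_filter_add_sum_filter_not univ
          (fun v => d * S.card / 2 ≤ ((S.filter fun i => v ∈ Y i).card : ℝ)), ← hC]
        apply add_le_add
        · rw [← nsmul_eq_mul]
          apply Finset.sum_le_card_nsmul
          intro v _
          exact_mod_cast Finset.card_filter_le _ _
        · have h4 := Finset.sum_le_card_nsmul (univ.filter (fun v =>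
            ¬ d * S.card / 2 ≤ ((S.filter fun i => v ∈ Y i).card : ℝ)))
            (fun v => ((S.filter fun i => v ∈ Y i).card : ℝ)) (d * S.card / 2) (by
              intro v hv
              exact (not_le.1 (Finset.mem_filter.1 hv).2).le)
          refine h4.trans ?_
          rw [nsmul_eq_mul]
          apply mul_le_mul_of_nonneg_right
          · exact_mod_cast Finset.card_le_univ _
          · positivity
      have h4 : (d / 2 * Fintype.card V) * S.card ≤ C.card * (S.card : ℝ) := by
        rw [h1] at h2
        nlinarith [h2.trans h3]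
      exact le_of_mul_le_mul_right h4 hSpos
  | succ j ih =>
    obtain ⟨G, hGS, hGj, C, hC1, hC2, hC3⟩ := ih (by omega)
    have hjt : (j : ℝ) + 1 ≤ t := by exact_mod_cast hj
    have hlt : (G.card : ℝ) < S.card := by
      rw [hGj]
      have h1 : d * S.card / 4 ≤ S.card := by nlinarith
      linarith
    have hne : (S \ G).Nonempty := by
      rw [Finset.sdiff_nonempty]
      intro h
      have := Finset.card_le_card h
      have h2 : G.card < S.card := by exact_mod_cast hlt
      omega
    -- the best next index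
    obtain ⟨i, hi, hiC⟩ : ∃ i ∈ S \ G, d / 4 * C.card ≤ ((C.filter fun v => v ∈ Y i).card : ℝ) := by
      by_contra hcon
      push Not at hcon
      have h1 : ∑ i ∈ S \ G, ((C.filter fun v => v ∈ Y i).card : ℝ) <
          ∑ i ∈ S \ G, d / 4 * C.card := Finset.sum_lt_sum_of_nonempty hne hcon
      rw [Finset.sum_const, nsmul_eq_mul] at h1
      have h2 : ∑ i ∈ S \ G, ((C.filter fun v => v ∈ Y i).card : ℝ) =
          ∑ v ∈ C, (((S \ G).filter fun i => v ∈ Y i).card : ℝ) := by
        have h3 := Finset.sum_card_bipartiteAbove_eq_sum_card_bipartiteBelow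
            (s := S \ G) (t := C) (fun i v => v ∈ Y i)
        unfold Finset.bipartiteAbove Finset.bipartiteBelow at h3
        exact_mod_cast h3
      have h3 : (C.card : ℝ) * (d * S.card / 4) ≤
          ∑ v ∈ C, (((S \ G).filter fun i => v ∈ Y i).card : ℝ) := by
        rw [← nsmul_eq_mul]
        apply Finset.card_nsmul_le_sum
        intro v hv
        have h4 := hC2 v hv
        have h5 : (S.filter fun i => v ∈ Y i).card ≤
            ((S \ G).filter fun i => v ∈ Y i).card + G.card := by
          have h6 : (S.filter fun i => v ∈ Y i) ⊆ ((S \ G).filter fun i => v ∈ Y i) ∪ G := by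
            intro i hi
            rw [Finset.mem_filter] at hi
            rw [Finset.mem_union, Finset.mem_filter, Finset.mem_sdiff]
            by_cases h : i ∈ G
            · exact Or.inr h
            · exact Or.inl ⟨⟨hi.1, h⟩, hi.2⟩
          exact (Finset.card_le_card h6).trans (Finset.card_union_le _ _)
        have h7 : ((S.filter fun i => v ∈ Y i).card : ℝ) ≤
            (((S \ G).filter fun i => v ∈ Y i).card : ℝ) + G.card := by exact_mod_cast h5
        rw [hGj] at h7
        linarith
      have h4 : ((S \ G).card : ℝ) * (d / 4 * C.card) ≤ (C.card : ℝ) * (d * S.card / 4) := by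
        have h5 : ((S \ G).card : ℝ) ≤ S.card := by
          exact_mod_cast Finset.card_le_card Finset.sdiff_subset
        have h6 : (0 : ℝ) ≤ d / 4 * C.card := by positivity
        calc ((S \ G).card : ℝ) * (d / 4 * C.card) ≤ S.card * (d / 4 * C.card) :=
              mul_le_mul_of_nonneg_right h5 h6
          _ = (C.card : ℝ) * (d * S.card / 4) := by ring
      rw [h2] at h1
      linarith
    rw [Finset.mem_sdiff] at hi
    refine ⟨insert i G, ?_, ?_, C.filter fun v => v ∈ Y i, ?_, ?_, ?_⟩
    · intro i' hi'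
      rcases Finset.mem_insert.1 hi' with rfl | h
      · exact hi.1
      · exact hGS h
    · rw [Finset.card_insert_of_notMem hi.2, hGj]
    · intro v hv i' hi'
      rw [Finset.mem_filter] at hv
      rcases Finset.mem_insert.1 hi' with rfl | h
      · exact hv.2
      · exact hC1 v hv.1 i' h
    · intro v hv
      exact hC2 v (Finset.mem_filter.1 hv).1
    · calc (d / 4) ^ (j + 1) * (d / 2) * Fintype.card V =
          d / 4 * ((d / 4) ^ j * (d / 2) * Fintype.card V) := by ring
        _ ≤ d / 4 * C.card := mul_le_mul_of_nonneg_left hC3 (by positivity)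
        _ ≤ _ := hiC

/-- a list of groups -/
private theorem Group_list {V I : Type} [Fintype V] [DecidableEq V] [DecidableEq I]
    (Y : I → Finset V) (d : ℝ) (hd : 0 < d) (hd1 : d ≤ 1) (t : ℕ) (ht : 1 ≤ t) (r : ℕ) :
    ∀ S : Finset I, S.card ≤ r → (∀ i ∈ S, d * Fintype.card V ≤ (Y i).card) →
    ∃ L : List (Finset I), (∀ i ∈ S, ∃ G ∈ L, i ∈ G) ∧
      (L.length : ℝ) ≤ S.card / t + 4 * t / d ∧ ∀ G ∈ L, ∃ C : Finset V,
        (∀ v ∈ C, ∀ i ∈ G, v ∈ Y i) ∧ (d / 4) ^ (t + 1) * Fintype.card V ≤ C.card := by
  have ht' : (1 : ℝ) ≤ t := by exact_mod_cast ht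
  induction r with
  | zero =>
    intro S hS _
    have hS0 : S = ∅ := Finset.card_eq_zero.1 (by omega)
    refine ⟨[], ?_, ?_, ?_⟩
    · intro i hi
      rw [hS0] at hi
      simp at hi
    · rw [List.length_nil, Nat.cast_zero]
      positivity
    · intro G hG
      simp at hG
  | succ r ih =>
    intro S hS hY
    rcases lt_or_ge (d * S.card / 4) (t : ℝ) with hlt | hge
    · refine ⟨S.toList.map fun i => {i}, ?_, ?_, ?_⟩
      · intro i hi
        exact ⟨{i}, List.mem_map.2 ⟨i, Finset.mem_toList.2 hi, rfl⟩, Finset.mem_singleton_self i⟩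
      · rw [List.length_map, Finset.length_toList]
        have h1 : (S.card : ℝ) ≤ 4 * t / d := by
          rw [le_div_iff₀ hd]
          linarith
        have h2 : (0 : ℝ) ≤ S.card / t := by positivity
        linarith
      · intro G hG
        obtain ⟨i, hi, rfl⟩ := List.mem_map.1 hG
        refine ⟨Y i, ?_, ?_⟩
        · intro v hv i' hi'
          rw [Finset.mem_singleton.1 hi']
          exact hv
        · refine le_trans ?_ (hY i (Finset.mem_toList.1 hi))
          apply mul_le_mul_of_nonneg_right _ (Nat.cast_nonneg _)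
          have h1 : (d / 4) ^ (t + 1) ≤ (d / 4) ^ 1 :=
            pow_le_pow_of_le_one (by positivity) (by linarith) (by omega)
          rw [pow_one] at h1
          linarith
    · obtain ⟨G, hGS, hGt, C, hC1, -, hC3⟩ :=
        Group_greedy Y d hd hd1 S hY t hge t le_rfl ht
      have hcard : (S \ G).card = S.card - t := by
        rw [Finset.card_sdiff_of_subset hGS, hGt]
      have htS : t ≤ S.card := by
        rw [← hGt]
        exact Finset.card_le_card hGS
      obtain ⟨L, hL1, hL2, hL3⟩ := ih (S \ G) (by omega)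
        (fun i hi => hY i (Finset.mem_sdiff.1 hi).1)
      refine ⟨G :: L, ?_, ?_, ?_⟩
      · intro i hi
        by_cases h : i ∈ G
        · exact ⟨G, List.mem_cons_self, h⟩
        · obtain ⟨G', hG', hi'⟩ := hL1 i (Finset.mem_sdiff.2 ⟨hi, h⟩)
          exact ⟨G', List.mem_cons_of_mem _ hG', hi'⟩
      · rw [List.length_cons, Nat.cast_add, Nat.cast_one]
        rw [hcard, Nat.cast_sub htS, sub_div, div_self (by positivity)] at hL2
        linarith
      · intro G' hG'
        rcases List.mem_cons.1 hG' with rfl | h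
        · refine ⟨C, hC1, le_trans ?_ hC3⟩
          apply mul_le_mul_of_nonneg_right _ (Nat.cast_nonneg _)
          rw [pow_succ]
          exact mul_le_mul_of_nonneg_left (by linarith) (by positivity)
        · exact hL3 G' h

open Classical in
theorem group {V I : Type} [Fintype V] [Fintype I] (Y : I → Finset V) (d : ℝ) (hd : 0 < d)
    (hY : ∀ i, d * Fintype.card V ≤ (Y i).card) (t : ℕ) (ht : 1 ≤ t) :
    ∃ (m : ℕ) (c : I → Fin m), (m : ℝ) ≤ Fintype.card I / t + 4 * t / d + 1 ∧
      ∀ l : Fin m, (d / 4) ^ (t + 1) * Fintype.card V ≤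
        ((univ.filter fun v => ∀ i, c i = l → v ∈ Y i).card : ℝ) := by
  have ht' : (1 : ℝ) ≤ t := by exact_mod_cast ht
  rcases isEmpty_or_nonempty I with hI | ⟨⟨i0⟩⟩
  · exact ⟨0, fun i => isEmptyElim i, by rw [Nat.cast_zero]; positivity, fun l => l.elim0⟩
  rcases isEmpty_or_nonempty V with hV | hV
  · refine ⟨1, fun _ => 0, ?_, ?_⟩
    · rw [Nat.cast_one]
      have : (0 : ℝ) ≤ Fintype.card I / t + 4 * t / d := by positivity
      linarith
    · intro l
      rw [Fintype.card_eq_zero, Nat.cast_zero, mul_zero]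
      exact Nat.cast_nonneg _
  have hVpos : (0 : ℝ) < Fintype.card V := by exact_mod_cast Fintype.card_pos
  have hd1 : d ≤ 1 := by
    have h1 : d * Fintype.card V ≤ 1 * Fintype.card V := by
      rw [one_mul]
      refine (hY i0).trans ?_
      exact_mod_cast Finset.card_le_univ _
    exact le_of_mul_le_mul_right h1 hVpos
  obtain ⟨L, hL1, hL2, hL3⟩ := Group_list Y d hd hd1 t ht (Fintype.card I) univ le_rfl
    (fun i _ => hY i)
  have hidx : ∀ i : I, ∃ l : Fin L.length, i ∈ L.get l := by
    intro i
    obtain ⟨G, hG, hi⟩ := hL1 i (Finset.mem_univ i)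
    obtain ⟨l, hl⟩ := List.mem_iff_get.1 hG
    exact ⟨l, by rw [hl]; exact hi⟩
  choose c hc using hidx
  refine ⟨L.length, c, ?_, ?_⟩
  · rw [Finset.card_univ] at hL2
    linarith
  · intro l
    obtain ⟨C, hC1, hC2⟩ := hL3 (L.get l) (List.get_mem L l)
    refine hC2.trans ?_
    norm_cast
    apply Finset.card_le_card
    intro v hv
    rw [Finset.mem_filter]
    refine ⟨Finset.mem_univ v, fun i hi => hC1 v hv i ?_⟩
    rw [← hi]
    exact hc i

end Pool.Agent.RV
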