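import Mathlib
import Pool.Agent.Lib.MP_0a1b52_lc_RK.Local
import Pool.Agent.Lib.MP_0a1b52_lc_RV.Core
import Pool.Agent.Lib.MP_0a1b52_lc_RV.Arith

/-!
# Local proofs with fixed sets: the theorem
-/

set_option autoImplicit false

namespace Pool.Agent.RV

open Finset Pool.Agent.FP Pool.Agent.RP Pool.Agent.RK

open Classical in
/-- for large enough sets only `X t` with small vertices matter -/
private theorem mainF_small {n N : ℕ} (hN : N + (Nat.sqrt n + 2) = n) (X : Finset (EdgeVar n))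
    (m : ℝ) (hX : m ≤ X.card) (h : 2 * ((Nat.sqrt n + 2 : ℕ) : ℝ) * n ≤ m) :
    m / 2 ≤ ((X.filter fun e => (e.1.2 : ℕ) < N).card : ℝ) := by
  have h3 : (X.filter fun e => ¬ (e.1.2 : ℕ) < N).card ≤ (Nat.sqrt n + 2) * n := by
    have h4 : (X.filter fun e => ¬ (e.1.2 : ℕ) < N).card ≤ ((univ : Finset (Fin n)) ×ˢ
        (univ.filter fun v : Fin n => ¬ (v : ℕ) < N)).card := by
      refine Finset.card_le_card_of_injOn (fun e => e.1) ?_ (fun e _ e' _ h => Subtype.ext h)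
      intro e he
      rw [Finset.mem_coe, Finset.mem_filter] at he
      simp only [Finset.coe_product, Set.mem_prod, Finset.coe_univ, Set.mem_univ, true_and,
        Finset.mem_coe, Finset.mem_filter, Finset.mem_univ]
      exact he.2
    have h5 : (univ.filter fun v : Fin n => (v : ℕ) < N).card +
        (univ.filter fun v : Fin n => ¬ (v : ℕ) < N).card = n := by
      rw [Finset.card_filter_add_card_filter_not, Finset.card_univ, Fintype.card_fin]
    have h6 : (univ.filter fun v : Fin n => (v : ℕ) < N).card = N := by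
      rw [Fin.card_filter_val_lt, min_eq_right (by omega)]
    have h7 : (univ.filter fun v : Fin n => ¬ (v : ℕ) < N).card = Nat.sqrt n + 2 := by omega
    rw [Finset.card_product, Finset.card_univ, Fintype.card_fin, h7, mul_comm] at h4
    exact h4
  have h8 : (X.filter fun e => (e.1.2 : ℕ) < N).card +
      (X.filter fun e => ¬ (e.1.2 : ℕ) < N).card = X.card :=
    Finset.card_filter_add_card_filter_not _
  have h9 : (((X.filter fun e => ¬ (e.1.2 : ℕ) < N).card : ℕ) : ℝ) ≤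
      ((Nat.sqrt n + 2 : ℕ) : ℝ) * n := by exact_mod_cast h3
  have h10 : (((X.filter fun e => (e.1.2 : ℕ) < N).card : ℕ) : ℝ) +
      (((X.filter fun e => ¬ (e.1.2 : ℕ) < N).card : ℕ) : ℝ) = X.card := by exact_mod_cast h8
  linarith

private theorem mainF_large (ε : ℝ) (hε : 0 < ε) : ∃ n₀ : ℕ, ∀ n ≥ n₀, ∀ K : ℕ,
    (K : ℝ) ≤ ε / 16 * Real.logb 2 n → (3 * K + 3 : ℝ) ≤ (n : ℝ) ^ (ε / 8) := by
  have hlim : Filter.Tendsto (fun n : ℕ => (n : ℝ) ^ (ε / 16)) Filter.atTop Filter.atTop :=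
    (tendsto_rpow_atTop (by positivity)).comp tendsto_natCast_atTop_atTop
  obtain ⟨n₀, h₀⟩ := Filter.eventually_atTop.1 (hlim.eventually_ge_atTop 6)
  refine ⟨max n₀ 2, fun n hn K hK => ?_⟩
  have hn2 : (2 : ℝ) ≤ n := by exact_mod_cast le_trans (le_max_right _ _) hn
  have hn0 : (0 : ℝ) < n := by linarith
  have h1 : (6 : ℝ) ≤ (n : ℝ) ^ (ε / 16) := h₀ n (le_trans (le_max_left _ _) hn)
  have h2 : (K : ℝ) ≤ (n : ℝ) ^ (ε / 16) := by
    have h3 : (2 : ℝ) ^ (K : ℝ) ≤ (n : ℝ) ^ (ε / 16) := by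
      calc (2 : ℝ) ^ (K : ℝ) ≤ (2 : ℝ) ^ (Real.logb 2 n * (ε / 16)) :=
            Real.rpow_le_rpow_of_exponent_le (by norm_num) (by linarith)
        _ = (n : ℝ) ^ (ε / 16) := by
            rw [Real.rpow_mul (by norm_num), Real.rpow_logb (by norm_num) (by norm_num) hn0]
    have h4 : (K : ℝ) ≤ (2 : ℝ) ^ (K : ℝ) := by
      rw [Real.rpow_natCast]
      exact_mod_cast (Nat.lt_two_pow_self (n := K)).le
    exact h4.trans h3
  have h5 : (n : ℝ) ^ (ε / 8) = (n : ℝ) ^ (ε / 16) * (n : ℝ) ^ (ε / 16) := by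
    rw [← Real.rpow_add hn0]
    congr 1
    ring
  rw [h5]
  nlinarith

open Classical in
/-- For `δ ≥ 0` and `ε > 0` with `2 δ + ε ≤ 1` there is `n₀` such that for all `n ≥ n₀`, all
`2 ≤ K ≤ (ε / 16) log₂ n` and all sets `X 1, ..., X K` of at least `n ^ (2 - δ)` variables there are
graphs `Q 1, ..., Q N` with `n` vertices and without a clique of more than `√n` vertices such that
for any functions `p 1, ..., p s` of a graph: if `r log₂ (s + 1) ≤ n ^ (2 - 2 δ - ε)`, then at most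
`N 2 ^ (- n ^ (2 - 2 δ - ε))` of the graphs `Q i` have a local proof with `r` lines. -/
theorem mainF (δ ε : ℝ) (hδ : 0 ≤ δ) (hε : 0 < ε) (hδε : 2 * δ + ε ≤ 1) : ∃ n₀ : ℕ, ∀ n ≥ n₀,
    ∀ K : ℕ, 2 ≤ K → (K : ℝ) ≤ ε / 16 * Real.logb 2 n →
    ∀ X : Fin K → Finset (EdgeVar n), (∀ t, (n : ℝ) ^ (2 - δ) ≤ ((X t).card : ℝ)) →
    ∃ (N : ℕ) (Q : Fin N → EdgeVar n → Bool), 0 < N ∧ (∀ i, ¬ Clq (Q i)) ∧
      ∀ (s r : ℕ) (p : Fin s → (EdgeVar n → Bool) → Bool),
        r * Real.logb 2 (s + 1) ≤ (n : ℝ) ^ (2 - 2 * δ - ε) →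
        ((univ.filter fun i => LocalProof p X (Q i) r).card : ℝ) ≤
          N * (2 : ℝ) ^ (-((n : ℝ) ^ (2 - 2 * δ - ε))) := by
  obtain ⟨a, h, z, n₁, ha, hh, hz, hA⟩ := arith δ ε hδ hε hδε
  obtain ⟨n₃, h₃⟩ := mainF_large ε hε
  refine ⟨max n₁ (max n₃ 1), fun n hn K hK2 hK X hX => ?_⟩
  have hn1 : n₁ ≤ n := le_trans (le_max_left _ _) hn
  have hn3 : n₃ ≤ n := le_trans (le_trans (le_max_left _ _) (le_max_right _ _)) hn
  have hn4 : 1 ≤ n := le_trans (le_trans (le_max_right _ _) (le_max_right _ _)) hn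
  have hnR : (1 : ℝ) ≤ n := by exact_mod_cast hn4
  have hn0 : (0 : ℝ) < n := by linarith
  obtain ⟨e1, e2, e3, e4, G, b, hb, hGb⟩ := hA n hn1 K (by omega) hK
  have hbig := h₃ n hn3 K hK
  obtain ⟨M, rfl⟩ : ∃ M, K = M + 1 := ⟨K - 1, by omega⟩
  set N₀ := n - (Nat.sqrt n + 2) with hN₀
  have hN : N₀ + (Nat.sqrt n + 2) = n := by omega
  obtain ⟨N, Q, hN1, hQ, hE⟩ := coreF (P := M) (G := G) (by omega) hN.le e2 ha hh (by omega) e1 X
    (4 * (n : ℝ) ^ (δ - 1)) (by positivity) (fun t => by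
      have h5 := mainF_small hN (X t) _ (hX t) e3
      have h6 : (n : ℝ) = 4 * (n : ℝ) ^ (δ - 1) * ((n : ℝ) ^ (2 - δ) / 4) := by
        have h7 : (n : ℝ) ^ (δ - 1) * (n : ℝ) ^ (2 - δ) = n := by
          rw [← Real.rpow_add hn0]
          have : δ - 1 + (2 - δ) = 1 := by ring
          rw [this, Real.rpow_one]
        linear_combination (-1 : ℝ) * h7
      have h8 : (n : ℝ) ^ (2 - δ) / 4 ≤
          (((X t).filter fun e => (e.1.2 : ℕ) < N₀).card : ℝ) := by
        have : 0 ≤ (n : ℝ) ^ (2 - δ) := by positivity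
        linarith
      calc (n : ℝ) = 4 * (n : ℝ) ^ (δ - 1) * ((n : ℝ) ^ (2 - δ) / 4) := h6
        _ ≤ _ := mul_le_mul_of_nonneg_left h8 (by positivity)) e4 b hb
  refine ⟨N, Q, hN1, hQ, fun s r p hrs => ?_⟩
  set a' : ℝ := N * (2 : ℝ) ^ (-((n : ℝ) ^ (2 - (2 * δ + 7 / 8 * ε)))) with ha'
  obtain ⟨m', T, hm', hT1, hT2, hT3⟩ := local_cover p X r
  have hθ : ∀ θ, ((univ.filter fun i => T θ (Q i)).card : ℝ) ≤ a' := fun θ => by
    refine (hE (T θ) (hT1 θ) fun x hx => hT2 θ x hx).trans ?_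
    refine mul_le_mul_of_nonneg_left ?_ (Nat.cast_nonneg _)
    refine Real.rpow_le_rpow_of_exponent_le (by norm_num) ?_
    have : (2 - (2 * δ + 7 / 8 * ε)) = 2 - 2 * δ - 7 / 8 * ε := by ring
    rw [this]
    linarith
  have hsub : (univ.filter fun i => LocalProof p X (Q i) r) ⊆
      univ.biUnion fun θ : Fin m' => univ.filter fun i => T θ (Q i) := by
    intro i hi
    obtain ⟨θ, hθ⟩ := hT3 (Q i) (mem_filter.1 hi).2
    exact mem_biUnion.2 ⟨θ, mem_univ _, mem_filter.2 ⟨mem_univ _, hθ⟩⟩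
  have h9 := (card_le_card hsub).trans (card_biUnion_le (s := univ)
    (t := fun θ : Fin m' => univ.filter fun i => T θ (Q i)))
  have h10 : ((univ.filter fun i => LocalProof p X (Q i) r).card : ℝ) ≤
      ∑ θ : Fin m', ((univ.filter fun i => T θ (Q i)).card : ℝ) := by exact_mod_cast h9
  have h11 : ((univ.filter fun i => LocalProof p X (Q i) r).card : ℝ) ≤
      (((M + 1) * (s * 2)) ^ r * (M + 1) : ℕ) * a' := by
    refine h10.trans ((sum_le_sum fun θ _ => hθ θ).trans (le_of_eq ?_))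
    rw [sum_const, card_univ, Fintype.card_fin, nsmul_eq_mul, hm']
  have h2' : (2 - (2 * δ + ε)) = 2 - 2 * δ - ε := by ring
  have h12 := local_arith (M := M) (s := s) (r := r) (n := n) (f := 1) (ε := 2 * δ + ε)
    (ε' := 2 * δ + 7 / 8 * ε) hn4 (by linarith) (by
      rw [Nat.cast_one, Real.logb_one]
      positivity) le_rfl (by rw [h2']; exact hrs) (by
      have h13 : (n : ℝ) ^ (2 - (2 * δ + 7 / 8 * ε)) =
          (n : ℝ) ^ (ε / 8) * (n : ℝ) ^ (2 - (2 * δ + ε)) := by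
        rw [← Real.rpow_add hn0]
        congr 1
        ring
      rw [h13]
      refine mul_le_mul_of_nonneg_right ?_ (by positivity)
      have h14 := hbig
      push_cast at h14
      exact h14)
  rw [one_pow, Nat.cast_one, one_mul, h2'] at h12
  calc _ ≤ (((M + 1) * (s * 2)) ^ r * (M + 1) : ℕ) * a' := h11
    _ = N * ((((M + 1) * (s * 2)) ^ r * (M + 1) : ℕ) *
        (2 : ℝ) ^ (-((n : ℝ) ^ (2 - (2 * δ + 7 / 8 * ε))))) := by
        rw [ha']
        ring
    _ ≤ N * (2 : ℝ) ^ (-((n : ℝ) ^ (2 - 2 * δ - ε))) :=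
        mul_le_mul_of_nonneg_left h12 (Nat.cast_nonneg _)

end Pool.Agent.RV
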