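import Mathlib
import Pool.Agent.Lib.MP_0a1b52_lc_RV.Main
import Pool.Agent.Lib.MP_0a1b52_lc_RV.Group

/-!
# Circuits with arbitrary gates each of which ignores many variables
-/

set_option autoImplicit false

namespace Pool.Agent.RV

open Finset Pool.Agent.FP Pool.Agent.RP Pool.Agent.RK

/-- A circuit with `r` arbitrary gates: `G i x` is the value of the gate `i` on the graph `x`; it is
determined by the values of the gates before and by the variables outside the set `Y i`; the value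
of some gate says whether the graph has a clique with more than `√n` vertices. -/
def ArbCircuit {n r : ℕ} (G : Fin r → (EdgeVar n → Bool) → Bool) (Y : Fin r → Finset (EdgeVar n)) :
    Prop :=
  (∀ (i : Fin r) (x y : EdgeVar n → Bool), (∀ v, v ∉ Y i → x v = y v) →
    (∀ j, j < i → G j x = G j y) → G i x = G i y) ∧
  ∃ i, ∀ x, G i x = true ↔ Clq x

/-- each graph without a large clique has a local proof -/
theorem ArbCircuit.proof {n r K : ℕ} {G : Fin r → (EdgeVar n → Bool) → Bool}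
    {Y : Fin r → Finset (EdgeVar n)} (hG : ArbCircuit G Y) (hK : 0 < K)
    (X : Fin K → Finset (EdgeVar n)) (c : Fin r → Fin K) (hX : ∀ i, X (c i) ⊆ Y i)
    (x : EdgeVar n → Bool) (hx : ¬ Clq x) : LocalProof G X x r := by
  obtain ⟨h1, i₀, h2⟩ := hG
  refine ⟨id, fun i => G i x, fun i => ⟨c i, fun y hy hj => ?_⟩, ⟨0, hK⟩, fun y _ hy hc => ?_⟩
  · exact (h1 i x y (fun v hv => (hy v fun h => hv (hX i h)).symm) fun j hji => (hj j hji).symm).symm
  · have h3 : G i₀ y = G i₀ x := hy i₀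
    have h4 := (h2 y).2 hc
    rw [h3] at h4
    exact hx ((h2 x).1 h4)

/-- A circuit with arbitrary gates, with at most `(ε / 16) log₂ n` different ignored sets -/
theorem arb_sets (δ ε : ℝ) (hδ : 0 ≤ δ) (hε : 0 < ε) (hδε : 2 * δ + ε ≤ 1) : ∃ n₀ : ℕ, ∀ n ≥ n₀,
    ∀ K : ℕ, 2 ≤ K → (K : ℝ) ≤ ε / 16 * Real.logb 2 n →
    ∀ X : Fin K → Finset (EdgeVar n), (∀ t, (n : ℝ) ^ (2 - δ) ≤ ((X t).card : ℝ)) →
    ∀ (r : ℕ) (G : Fin r → (EdgeVar n → Bool) → Bool) (Y : Fin r → Finset (EdgeVar n)),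
      (∀ i, ∃ t, X t ⊆ Y i) → ArbCircuit G Y →
      (n : ℝ) ^ (2 - 2 * δ - ε) < r * Real.logb 2 (r + 1) := by
  obtain ⟨n₀, h₀⟩ := mainF δ ε hδ hε hδε
  refine ⟨max n₀ 1, fun n hn K hK2 hK X hX r G Y hY hG => ?_⟩
  obtain ⟨N, Q, hN, hQ, hE⟩ := h₀ n (le_trans (le_max_left _ _) hn) K hK2 hK X hX
  by_contra hc
  choose c hc' using hY
  have h1 := hE r r G (not_lt.1 hc)
  have hall : ∀ i, LocalProof G X (Q i) r := fun i =>
    hG.proof (by omega) X c hc' (Q i) (hQ i)
  classical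
  rw [filter_true_of_mem fun i _ => hall i, card_univ, Fintype.card_fin] at h1
  have hn1 : (0 : ℝ) < n := by
    have : 1 ≤ n := le_trans (le_max_right _ _) hn
    exact_mod_cast this
  have h2 : (2 : ℝ) ^ (-((n : ℝ) ^ (2 - 2 * δ - ε))) < 1 :=
    Real.rpow_lt_one_of_one_lt_of_neg (by norm_num) (by
      have : 0 < (n : ℝ) ^ (2 - 2 * δ - ε) := by positivity
      linarith)
  have h3 : (0 : ℝ) < N := by exact_mod_cast hN
  nlinarith

private theorem own_card (n : ℕ) (hn : 2 ≤ n) :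
    (n : ℝ) ^ 2 / 4 ≤ Fintype.card (EdgeVar n) ∧ (Fintype.card (EdgeVar n) : ℝ) ≤ (n : ℝ) ^ 2 := by
  have h1 : 2 * Fintype.card (EdgeVar n) = n * (n - 1) := pairs_card n
  have h2 : 2 * (Fintype.card (EdgeVar n) : ℝ) = n * (n - 1) := by
    have := congrArg (Nat.cast : ℕ → ℝ) h1
    push_cast [Nat.cast_sub (by omega : 1 ≤ n)] at this
    exact this
  have h3 : (2 : ℝ) ≤ n := by exact_mod_cast hn
  constructor <;> nlinarith

private theorem own_large (β c₁ : ℝ) (hc₁ : 0 < c₁) : ∃ n₀ : ℕ, ∀ n ≥ n₀,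
    2 ≤ n ∧ 140 ≤ Real.logb 2 n ∧ 8 * (2 + β) ≤ Real.logb 2 n ∧ 2 ≤ c₁ * Real.logb 2 n ∧
      Real.logb 2 n ^ 4 ≤ n := by
  have h1 : Filter.Tendsto (fun n : ℕ => Real.logb 2 (n : ℝ)) Filter.atTop Filter.atTop :=
    (Real.tendsto_logb_atTop (by norm_num)).comp tendsto_natCast_atTop_atTop
  have h2 : ∀ᶠ n : ℕ in Filter.atTop, Real.logb 2 (n : ℝ) ^ 4 ≤ n := by
    have h3 : (fun x : ℝ => Real.log x ^ 4) =o[Filter.atTop] fun x : ℝ => x := by
      have := isLittleO_log_rpow_rpow_atTop (s := 1) 4 one_pos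
      simpa using this
    have h4 := (h3.bound (show (0 : ℝ) < Real.log 2 ^ 4 by positivity))
    have h5 := tendsto_natCast_atTop_atTop (R := ℝ) |>.eventually h4
    filter_upwards [h5, Filter.eventually_ge_atTop 1] with n hn hn1
    have hn0 : (1 : ℝ) ≤ n := by exact_mod_cast hn1
    have h6 : 0 ≤ Real.log n := Real.log_nonneg hn0
    rw [Real.norm_of_nonneg (by positivity), Real.norm_of_nonneg (by linarith)] at hn
    rw [Real.logb, div_pow, div_le_iff₀ (by positivity), mul_comm]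
    exact hn
  obtain ⟨n₀, h₀⟩ := Filter.eventually_atTop.1 (((h1.eventually_ge_atTop 140).and
    (h1.eventually_ge_atTop (8 * (2 + β)))).and ((h1.eventually_ge_atTop (2 / c₁)).and h2))
  refine ⟨max n₀ 2, fun n hn => ?_⟩
  obtain ⟨⟨e1, e2⟩, e3, e4⟩ := h₀ n (le_trans (le_max_left _ _) hn)
  refine ⟨le_trans (le_max_right _ _) hn, e1, e2, ?_, e4⟩
  rw [div_le_iff₀ hc₁] at e3
  linarith

open Classical in
/-- For each `d > 0` there is `c > 0` such that for all large `n`: a circuit with arbitrary gates,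
each of which ignores at least `d n ^ 2` variables (each gate its own), which decides whether a graph
with `n` vertices has a clique of more than `√n` vertices, has at least `c (log₂ n) ^ 2` gates. -/
theorem arb_own (d : ℝ) (hd : 0 < d) : ∃ c : ℝ, 0 < c ∧ ∃ n₀ : ℕ, ∀ n ≥ n₀,
    ∀ (r : ℕ) (G : Fin r → (EdgeVar n → Bool) → Bool) (Y : Fin r → Finset (EdgeVar n)),
      (∀ i, d * (n : ℝ) ^ 2 ≤ ((Y i).card : ℝ)) → ArbCircuit G Y →
      c * Real.logb 2 n ^ 2 ≤ r := by
  set d' : ℝ := min d 1 with hd'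
  have hd0 : 0 < d' := lt_min hd one_pos
  have hd1 : d' ≤ 1 := min_le_right _ _
  have hdd : d' ≤ d := min_le_left _ _
  set β : ℝ := Real.logb 2 (4 / d') with hβ
  have hβ2 : 2 ≤ β := by
    rw [hβ, Real.le_logb_iff_rpow_le (by norm_num) (by positivity), le_div_iff₀ hd0]
    norm_num
    linarith
  set c₁ : ℝ := d' / (1024 * β) with hc₁
  have hc₁0 : 0 < c₁ := by positivity
  obtain ⟨n₁, h₁⟩ := own_large β c₁ hc₁0
  obtain ⟨n₂, h₂⟩ := arb_sets (1 / 4) (1 / 2) (by norm_num) (by norm_num) (by norm_num)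
  refine ⟨c₁ / 256, by positivity, max n₁ n₂, fun n hn r G Y hY hG => ?_⟩
  obtain ⟨hn2, hL1, hL2, hL3, hL4⟩ := h₁ n (le_trans (le_max_left _ _) hn)
  set L := Real.logb 2 n with hL
  have hnR : (2 : ℝ) ≤ n := by exact_mod_cast hn2
  have hn0 : (0 : ℝ) < n := by linarith
  have hnL : (n : ℝ) = (2 : ℝ) ^ L := (Real.rpow_logb (by norm_num) (by norm_num) hn0).symm
  by_contra hcon
  have hr : (r : ℝ) < c₁ / 256 * L ^ 2 := not_le.1 hcon
  obtain ⟨hV1, hV2⟩ := own_card n hn2
  set t : ℕ := ⌊c₁ * L⌋₊ with ht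
  have ht1 : (t : ℝ) ≤ c₁ * L := Nat.floor_le (by positivity)
  have ht2 : c₁ * L / 2 ≤ t := by
    have := Nat.sub_one_lt_floor (c₁ * L)
    rw [← ht] at this
    linarith
  have ht3 : 1 ≤ t := by
    have : (1 : ℝ) ≤ t := by linarith
    exact_mod_cast this
  have ht0 : (0 : ℝ) < t := by exact_mod_cast ht3
  obtain ⟨m, cls, hm, hX⟩ := group Y d' hd0 (fun i => by
    refine le_trans ?_ (hY i)
    calc d' * (Fintype.card (EdgeVar n) : ℝ) ≤ d' * (n : ℝ) ^ 2 :=
          mul_le_mul_of_nonneg_left hV2 hd0.le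
      _ ≤ d * (n : ℝ) ^ 2 := mul_le_mul_of_nonneg_right hdd (by positivity)) t ht3
  rw [Fintype.card_fin] at hm
  -- the number of classes
  have hm2 : ((m + 2 : ℕ) : ℝ) ≤ 1 / 2 / 16 * L := by
    have e1 : (r : ℝ) / t ≤ L / 128 := by
      rw [div_le_iff₀ ht0]
      calc (r : ℝ) ≤ c₁ / 256 * L ^ 2 := hr.le
        _ = L / 128 * (c₁ * L / 2) := by ring
        _ ≤ L / 128 * t := mul_le_mul_of_nonneg_left ht2 (by positivity)
    have e2 : 4 * (t : ℝ) / d' ≤ L / 512 := by
      rw [div_le_iff₀ hd0]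
      have e3 : c₁ * L ≤ d' / 2048 * L := by
        refine mul_le_mul_of_nonneg_right ?_ (by linarith)
        rw [hc₁]
        exact div_le_div_of_nonneg_left hd0.le (by norm_num) (by linarith)
      linarith
    push_cast
    linarith
  -- the sets
  let X : Fin (m + 2) → Finset (EdgeVar n) := fun l =>
    univ.filter fun v => ∀ i, (cls i).castAdd 2 = l → v ∈ Y i
  have hsmall : (d' / 4) ^ (t + 1) ≤ 1 := pow_le_one₀ (by positivity) (by linarith)
  have hXc : ∀ l, (d' / 4) ^ (t + 1) * Fintype.card (EdgeVar n) ≤ ((X l).card : ℝ) := by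
    intro l
    refine Fin.addCases (fun l' => ?_) (fun l' => ?_) l
    · refine (hX l').trans (le_of_eq ?_)
      congr 2
      ext v
      simp only [X, mem_filter, mem_univ, true_and]
      exact ⟨fun h i hi => h i (Fin.castAdd_injective _ _ hi), fun h i hi => h i (by rw [hi])⟩
    · have h3 : X (Fin.natAdd m l') = univ := by
        refine filter_true_of_mem fun v _ i hi => ?_
        have h4 := congrArg Fin.val hi
        have h5 := (cls i).2
        simp only [Fin.val_castAdd, Fin.val_natAdd] at h4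
        omega
      rw [h3, card_univ]
      calc (d' / 4) ^ (t + 1) * (Fintype.card (EdgeVar n) : ℝ) ≤
            1 * (Fintype.card (EdgeVar n) : ℝ) :=
            mul_le_mul_of_nonneg_right hsmall (Nat.cast_nonneg _)
        _ = _ := one_mul _
  have hXs : ∀ l, (n : ℝ) ^ (2 - (1 / 4 : ℝ)) ≤ ((X l).card : ℝ) := by
    intro l
    refine le_trans ?_ (hXc l)
    have h4 : d' / 4 = (2 : ℝ) ^ (-β) := by
      rw [Real.rpow_neg (by norm_num), hβ, Real.rpow_logb (by norm_num) (by norm_num)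
        (by positivity), inv_div]
    have h5 : (2 : ℝ) ^ (-(L / 1024) - β) ≤ (d' / 4) ^ (t + 1) := by
      rw [h4, ← Real.rpow_mul_natCast (by norm_num)]
      refine Real.rpow_le_rpow_of_exponent_le (by norm_num) ?_
      push_cast
      have h6 : β * t ≤ L / 1024 := by
        calc β * t ≤ β * (c₁ * L) := mul_le_mul_of_nonneg_left ht1 (by linarith)
          _ = d' / 1024 * L := by
              rw [hc₁]
              field_simp
          _ ≤ 1 / 1024 * L := mul_le_mul_of_nonneg_right (by linarith) (by linarith)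
          _ = _ := by ring
      linarith
    have h7 : (2 : ℝ) ^ (2 * L - 2) ≤ Fintype.card (EdgeVar n) := by
      refine le_trans (le_of_eq ?_) hV1
      rw [Real.rpow_sub (by norm_num), hnL, ← Real.rpow_natCast ((2 : ℝ) ^ L) 2,
        ← Real.rpow_mul (by norm_num)]
      norm_num
      ring_nf
    calc (n : ℝ) ^ (2 - (1 / 4 : ℝ)) = (2 : ℝ) ^ (L * (2 - 1 / 4)) := by
          rw [hnL, ← Real.rpow_mul (by norm_num)]
      _ ≤ (2 : ℝ) ^ ((-(L / 1024) - β) + (2 * L - 2)) :=
          Real.rpow_le_rpow_of_exponent_le (by norm_num) (by linarith)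
      _ = (2 : ℝ) ^ (-(L / 1024) - β) * (2 : ℝ) ^ (2 * L - 2) :=
          Real.rpow_add (by norm_num) _ _
      _ ≤ _ := mul_le_mul h5 h7 (by positivity) (by positivity)
  have hfin := h₂ n (le_trans (le_max_right _ _) hn) (m + 2) (by omega) hm2 X hXs r G Y
    (fun i => ⟨(cls i).castAdd 2, fun v hv => (mem_filter.1 hv).2 i rfl⟩) hG
  -- the number of gates is too small
  have h8 : (r : ℝ) * Real.logb 2 (r + 1) ≤ n := by
    have h9 : Real.logb 2 ((r : ℝ) + 1) ≤ r := by
      rw [Real.logb_le_iff_le_rpow (by norm_num) (by positivity), Real.rpow_natCast]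
      exact_mod_cast Nat.lt_two_pow_self (n := r)
    have h10 : (r : ℝ) ≤ L ^ 2 := by
      refine hr.le.trans ?_
      have h11 : c₁ / 256 ≤ 1 := by
        have : c₁ ≤ 1 := by
          rw [hc₁, div_le_one (by positivity)]
          linarith
        linarith
      calc c₁ / 256 * L ^ 2 ≤ 1 * L ^ 2 := mul_le_mul_of_nonneg_right h11 (by positivity)
        _ = L ^ 2 := one_mul _
    calc (r : ℝ) * Real.logb 2 (r + 1) ≤ r * r := mul_le_mul_of_nonneg_left h9 (Nat.cast_nonneg _)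
      _ ≤ L ^ 2 * L ^ 2 := mul_le_mul h10 h10 (Nat.cast_nonneg _) (by positivity)
      _ = L ^ 4 := by ring
      _ ≤ n := hL4
  have h12 : (2 - 2 * (1 / 4) - 1 / 2 : ℝ) = 1 := by norm_num
  rw [h12, Real.rpow_one] at hfin
  linarith

end Pool.Agent.RV
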